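import Mathlib

/-!
Recurrence of the hyperextension on compact convex sets (MP_a90892_an): definitions, and the
direction `𝒦(X)` recurrent ⟹ `𝒞(X)` recurrent.
-/

open Set TopologicalSpace
open scoped Topology Pointwise

namespace X109RC

/-- A Furstenberg family: upward closed, not containing `∅`. -/
def IsFurstenberg (A : Set (Set ℕ)) : Prop :=
  (∀ S ∈ A, ∀ T, S ⊆ T → T ∈ A) ∧ ∅ ∉ A

/-- The `ℓ`-return set `{n | ⋂_{0 ≤ j ≤ ℓ} g^{-jn}(U) ≠ ∅}`. -/
def returnSet {Y : Type*} (g : Y → Y) (l : ℕ) (U : Set Y) : Set ℕ :=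
  {n | (⋂ j ∈ Iic l, (g^[j * n]) ⁻¹' U).Nonempty}

/-- Topological `(ℓ, 𝒜)`-recurrence. -/
def IsRecurrent {Y : Type*} [TopologicalSpace Y] (g : Y → Y) (l : ℕ) (A : Set (Set ℕ)) : Prop :=
  ∀ U : Set Y, IsOpen U → U.Nonempty → returnSet g l U ∈ A

variable {E : Type*} [AddCommGroup E] [Module ℝ E] [TopologicalSpace E]

/-- The hyperextension on nonempty compact sets (with the Vietoris topology). -/
def hyper {X : Type*} [TopologicalSpace X] (f : X → X) (hf : Continuous f) :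
    NonemptyCompacts X → NonemptyCompacts X := fun K => K.map f hf

variable (E) in
/-- The space of nonempty compact convex sets, as a subspace of `NonemptyCompacts E`. -/
abbrev ConvexCompacts : Type _ := {K : NonemptyCompacts E // Convex ℝ (K : Set E)}

/-- The hyperextension restricted to compact convex sets. -/
def hyperConvex (f : E →L[ℝ] E) : ConvexCompacts E → ConvexCompacts E :=
  fun K => ⟨hyper f f.continuous K.1, by
    have := K.2.is_linear_image f.toLinearMap.isLinear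
    simpa [hyper] using this⟩

lemma mem_returnSet {Y : Type*} (g : Y → Y) (l : ℕ) (U : Set Y) (n : ℕ) :
    n ∈ returnSet g l U ↔ ∃ y, ∀ j ≤ l, g^[j * n] y ∈ U := by
  simp [returnSet, Set.Nonempty]

lemma hyper_iterate (f : E →L[ℝ] E) (m : ℕ) (K : NonemptyCompacts E) :
    (((hyper f f.continuous)^[m] K : NonemptyCompacts E) : Set E) = (f ^ m : E →L[ℝ] E) '' K := by
  induction m with
  | zero => simp
  | succ m ih =>
    rw [Function.iterate_succ_apply', hyper, NonemptyCompacts.coe_map, ih, pow_succ', image_image]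
    rfl

lemma hyperConvex_iterate (f : E →L[ℝ] E) (m : ℕ) (K : ConvexCompacts E) :
    ((((hyperConvex f)^[m] K).1 : NonemptyCompacts E) : Set E) = (f ^ m : E →L[ℝ] E) '' (K.1 : Set E) := by
  rw [← hyper_iterate]
  congr 1
  induction m with
  | zero => rfl
  | succ m ih => rw [Function.iterate_succ_apply', Function.iterate_succ_apply', ← ih]; rfl

variable [IsTopologicalAddGroup E] [ContinuousSMul ℝ E] [LocallyConvexSpace ℝ E]

/-- `𝒦(X)` recurrent implies `𝒞(X)` recurrent. -/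
theorem convex_of_hyper (f : E →L[ℝ] E) (l : ℕ) (A : Set (Set ℕ)) (hA : IsFurstenberg A)
    (h : IsRecurrent (hyper f f.continuous) l A) : IsRecurrent (hyperConvex f) l A := by
  intro W hW hne
  obtain ⟨C, hC⟩ := hne
  obtain ⟨W', hW', rfl⟩ := isOpen_induced_iff.mp hW
  obtain ⟨_, ⟨u, ⟨hufin, hune, huo⟩, rfl⟩, hCu, huW⟩ :=
    NonemptyCompacts.isTopologicalBasis.exists_subset_of_mem_open (show C.1 ∈ W' from hC) hW'
  obtain ⟨hC1, hC2⟩ := hCu
  have hO : IsOpen (⋃₀ u) := isOpen_sUnion huo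
  obtain ⟨V, hV, hCV⟩ := compact_open_separated_add_right C.1.isCompact hO hC1
  obtain ⟨V', ⟨hV'0, hV'o, -, hV'c⟩, hV'V⟩ :=
    (nhds_hasBasis_absConvex_open ℝ E).mem_iff.mp hV
  set O' : Set E := (C.1 : Set E) + V' with hO'
  have hO'o : IsOpen O' := hV'o.add_left
  have hO'c : Convex ℝ O' := C.2.add hV'c
  have hO'O : O' ⊆ ⋃₀ u := (add_subset_add_left hV'V).trans hCV
  have hCO' : (C.1 : Set E) ⊆ O' := fun x hx => ⟨x, hx, 0, hV'0, by simp⟩
  -- the open set of compacta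
  set T : Set (NonemptyCompacts E) :=
    {K | (K : Set E) ⊆ O'} ∩ ⋂ U ∈ u, {K | ((K : Set E) ∩ U).Nonempty} with hT
  have hTo : IsOpen T := (NonemptyCompacts.isOpen_subsets_of_isOpen hO'o).inter
    (hufin.isOpen_biInter fun U hU => NonemptyCompacts.isOpen_inter_nonempty_of_isOpen (huo U hU))
  have hTne : T.Nonempty := ⟨C.1, hCO', by simpa using hC2⟩
  refine hA.1 _ (h T hTo hTne) _ ?_
  intro n hn
  rw [mem_returnSet] at hn ⊢
  obtain ⟨K, hK⟩ := hn
  have hK1 : ∀ j ≤ l, (f ^ (j * n) : E →L[ℝ] E) '' (K : Set E) ⊆ O' := by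
    intro j hj
    have := (hK j hj).1
    rw [mem_ofPred, hyper_iterate] at this
    exact this
  have hK2 : ∀ j ≤ l, ∀ U ∈ u, ∃ x ∈ (K : Set E), (f ^ (j * n) : E →L[ℝ] E) x ∈ U := by
    intro j hj U hU
    have := (hK j hj).2
    rw [mem_iInter₂] at this
    have h2 := this U hU
    rw [mem_ofPred, hyper_iterate] at h2
    obtain ⟨_, ⟨x, hx, rfl⟩, hxU⟩ := h2
    exact ⟨x, hx, hxU⟩
  choose! x hxK hxU using hK2
  -- the finite set of chosen points
  obtain ⟨U0, hU0⟩ := hune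
  let F : Set E := (fun p : ℕ × Set E => x p.1 p.2) '' ((Iic l) ×ˢ u)
  have hFfin : F.Finite := ((finite_Iic l).prod hufin).image _
  have hFK : F ⊆ K := by
    rintro _ ⟨p, ⟨hp1, hp2⟩, rfl⟩
    exact hxK p.1 hp1 p.2 hp2
  have hFne : F.Nonempty := ⟨x 0 U0, (0, U0), ⟨Nat.zero_le _, hU0⟩, rfl⟩
  let P : ConvexCompacts E := ⟨⟨⟨convexHull ℝ F, hFfin.isCompact_convexHull ℝ⟩, hFne.convexHull⟩,
    convex_convexHull ℝ F⟩
  refine ⟨P, fun j hj => ?_⟩
  have hset : ((((hyperConvex f)^[j * n] P).1 : NonemptyCompacts E) : Set E) =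
      convexHull ℝ ((f ^ (j * n) : E →L[ℝ] E) '' F) := by
    rw [hyperConvex_iterate]
    exact ((f ^ (j * n) : E →L[ℝ] E).toLinearMap.image_convexHull F)
  refine huW ⟨?_, fun U hU => ?_⟩
  · rw [hset]
    refine (convexHull_min ?_ hO'c).trans hO'O
    exact (image_mono hFK).trans (hK1 j hj)
  · rw [hset]
    exact ⟨_, subset_convexHull ℝ _ ⟨x j U, ⟨(j, U), ⟨hj, hU⟩, rfl⟩, rfl⟩, hxU j hj U hU⟩

end X109RC
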