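import Pool.Agent.X109.RC.Basic

/-!
Recurrence of the hyperextension on compact convex sets (MP_a90892_an): the direction
`𝒞(X)` recurrent ⟹ `𝒦(X)` recurrent.
-/

open Set TopologicalSpace
open scoped Topology Pointwise

namespace X109RC

set_option linter.unusedSectionVars false

variable {E : Type*} [AddCommGroup E] [Module ℝ E] [TopologicalSpace E]
variable {ι : Type*} [DecidableEq ι]

lemma hull_rep (s : Finset ι) (u : ι → E) {x : E} (hx : x ∈ convexHull ℝ (u '' (s : Set ι))) :
    ∃ p : ι → ℝ, (∀ i ∈ s, 0 ≤ p i) ∧ ∑ i ∈ s, p i = 1 ∧ ∑ i ∈ s, p i • u i = x := by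
  have key : convexHull ℝ (u '' (s : Set ι)) ⊆
      {x | ∃ p : ι → ℝ, (∀ i ∈ s, 0 ≤ p i) ∧ ∑ i ∈ s, p i = 1 ∧ ∑ i ∈ s, p i • u i = x} := by
    refine convexHull_min ?_ ?_
    · rintro _ ⟨i, hi, rfl⟩
      have hi' : i ∈ s := hi
      refine ⟨Pi.single i 1, fun k _ => ?_, ?_, ?_⟩
      · by_cases h : k = i
        · subst h; simp
        · simp [h]
      · rw [Finset.sum_eq_single i]
        · simp
        · intro b _ hb; simp [hb]
        · intro h; exact absurd hi' h
      · rw [Finset.sum_eq_single i]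
        · simp
        · intro b _ hb; simp [hb]
        · intro h; exact absurd hi' h
    · rintro _ ⟨p, hp0, hp1, rfl⟩ _ ⟨p', hp0', hp1', rfl⟩ a b ha hb hab
      refine ⟨fun i => a * p i + b * p' i, fun i hi => ?_, ?_, ?_⟩
      · have := hp0 i hi
        have := hp0' i hi
        positivity
      · rw [Finset.sum_add_distrib, ← Finset.mul_sum, ← Finset.mul_sum, hp1, hp1']
        simpa using hab
      · simp_rw [add_smul, mul_smul]
        rw [Finset.sum_add_distrib, Finset.smul_sum, Finset.smul_sum]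
  exact key hx

/-- the key dichotomy estimate -/
lemma exists_big (q : Seminorm ℝ E) (s : Finset ι) (u : ι → E) (j : ι) (hj : j ∈ s)
    (p : ι → ℝ) (hp0 : ∀ i ∈ s, 0 ≤ p i) (hp1 : ∑ i ∈ s, p i = 1) (e : E) (he : q e < 1 / 2)
    (M : ℝ) (hM : 0 < M) (huM : ∀ i ∈ s, q (u i - u j) ≤ M)
    (hfar : 1 ≤ q ((∑ i ∈ s, p i • u i + e) - u j)) :
    ∃ k ∈ s, k ≠ j ∧ 1 / (2 * s.card * M) ≤ p k := by
  by_contra hcon
  push Not at hcon
  have hcard : (0 : ℝ) < s.card := by exact_mod_cast Finset.card_pos.mpr ⟨j, hj⟩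
  have e1 : (∑ i ∈ s, p i • u i + e) - u j = ∑ i ∈ s, p i • (u i - u j) + e := by
    simp_rw [smul_sub]
    rw [Finset.sum_sub_distrib, ← Finset.sum_smul, hp1, one_smul]
    abel
  rw [e1] at hfar
  have h1 : q (∑ i ∈ s, p i • (u i - u j) + e) ≤ q (∑ i ∈ s, p i • (u i - u j)) + q e :=
    map_add_le_add q _ _
  have h2 : q (∑ i ∈ s, p i • (u i - u j)) ≤ ∑ i ∈ s, q (p i • (u i - u j)) := by
    have := Finset.le_sum_of_subadditive q (map_zero q).le (map_add_le_add q) s
      (fun i => p i • (u i - u j))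
    simpa using this
  have h3 : ∑ i ∈ s, q (p i • (u i - u j)) ≤ ∑ i ∈ s, (1 / (2 * s.card * M)) * M := by
    refine Finset.sum_le_sum fun i hi => ?_
    rw [map_smul_eq_mul, Real.norm_of_nonneg (hp0 i hi)]
    by_cases hij : i = j
    · subst hij
      simp only [sub_self, map_zero, mul_zero]
      positivity
    · exact mul_le_mul (hcon i hi hij).le (huM i hi) (apply_nonneg q _) (by positivity)
  have h4 : ∑ i ∈ s, (1 / (2 * (s.card : ℝ) * M)) * M = 1 / 2 := by
    rw [Finset.sum_const, nsmul_eq_mul]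
    field_simp
  linarith

variable [IsTopologicalAddGroup E] [ContinuousSMul ℝ E] [LocallyConvexSpace ℝ E]

lemma exists_seminorm (s : Finset ι) (U : ι → Set E) (u : ι → E) (hU : ∀ i ∈ s, IsOpen (U i))
    (hu : ∀ i ∈ s, u i ∈ U i) :
    ∃ q : Seminorm ℝ E, Continuous q ∧ ∀ i ∈ s, ∀ x, q (x - u i) < 1 → x ∈ U i := by
  have h1 : (⋂ i ∈ s, (fun v => v + u i) ⁻¹' (U i)) ∈ 𝓝 (0:E) := by
    rw [Filter.biInter_finset_mem]
    intro i hi
    apply ((hU i hi).preimage (by fun_prop)).mem_nhds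
    simpa using hu i hi
  obtain ⟨S, ⟨hS0, hSo, hSb, hSc⟩, hSV⟩ := (nhds_hasBasis_absConvex_open ℝ E).mem_iff.mp h1
  refine ⟨gaugeSeminorm hSb hSc (absorbent_nhds_zero (hSo.mem_nhds hS0)), ?_, ?_⟩
  · refine Seminorm.continuous (r := 1) ?_
    rw [gaugeSeminorm_ball_one hSo]; exact hSo.mem_nhds hS0
  · intro i hi x hx
    have h2 : x - u i ∈ (gaugeSeminorm hSb hSc (absorbent_nhds_zero (hSo.mem_nhds hS0))).ball 0 1 := by
      rw [Seminorm.mem_ball_zero]; exact hx
    rw [gaugeSeminorm_ball_one hSo] at h2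
    have h3 := hSV h2
    rw [mem_iInter₂] at h3
    simpa using h3 i hi

/-- the linear map `Φ_k` of the proof -/
noncomputable def Phi (f : E →L[ℝ] E) (s : Finset ι) (p : ι → ℝ) (j k : ι) (n : ℕ) (z : ι → E) : E :=
  (p k)⁻¹ • ((f ^ n : E →L[ℝ] E) (z j) - ∑ i ∈ s.erase k, p i • z i)

lemma Phi_continuous (f : E →L[ℝ] E) (s : Finset ι) (p : ι → ℝ) (j k : ι) (n : ℕ) :
    Continuous (Phi f s p j k n) := by
  unfold Phi
  fun_prop

lemma Phi_comm (f : E →L[ℝ] E) (s : Finset ι) (p : ι → ℝ) (j k : ι) (n m : ℕ) (z : ι → E) :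
    (f ^ m : E →L[ℝ] E) (Phi f s p j k n z) =
      Phi f s p j k n (fun i => (f ^ m : E →L[ℝ] E) (z i)) := by
  unfold Phi
  have hc : (f ^ m : E →L[ℝ] E) ((f ^ n : E →L[ℝ] E) (z j)) =
      (f ^ n : E →L[ℝ] E) ((f ^ m : E →L[ℝ] E) (z j)) := by
    have h1 : (f ^ m : E →L[ℝ] E) * (f ^ n : E →L[ℝ] E) = (f ^ n) * (f ^ m) := by
      rw [← pow_add, ← pow_add, add_comm]
    exact congrArg (fun g : E →L[ℝ] E => g (z j)) h1
  simp only [map_smul, map_sub, map_sum, hc]

lemma Phi_congr (f : E →L[ℝ] E) (s : Finset ι) (p : ι → ℝ) (j k : ι) (n : ℕ) (z z' : ι → E)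
    (hj : j ∈ s.erase k) (h : ∀ i ∈ s.erase k, z i = z' i) :
    Phi f s p j k n z = Phi f s p j k n z' := by
  unfold Phi
  rw [h j hj, Finset.sum_congr rfl fun i hi => by rw [h i hi]]

lemma Phi_value (f : E →L[ℝ] E) (s : Finset ι) (p : ι → ℝ) (j k : ι) (n : ℕ) (u : ι → E) (x e : E)
    (hj : j ∈ s) (hk : k ∈ s) (hjk : k ≠ j) (hpk : p k ≠ 0)
    (hx : (f ^ n : E →L[ℝ] E) x = ∑ i ∈ s, p i • u i + e) :
    Phi f s p j k n (Function.update u j x) - u k = (p k)⁻¹ • (e - p j • (x - u j)) := by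
  unfold Phi
  rw [Function.update_self, hx]
  have hj' : j ∈ s.erase k := Finset.mem_erase.mpr ⟨hjk.symm, hj⟩
  have h1 : ∑ i ∈ s.erase k, p i • Function.update u j x i =
      ∑ i ∈ s.erase k, p i • u i + p j • (x - u j) := by
    rw [← Finset.add_sum_erase _ _ hj', ← Finset.add_sum_erase (s.erase k) (fun i => p i • u i) hj',
      Function.update_self]
    have : ∑ i ∈ (s.erase k).erase j, p i • Function.update u j x i =
        ∑ i ∈ (s.erase k).erase j, p i • u i := by
      refine Finset.sum_congr rfl fun i hi => ?_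
      rw [Function.update_of_ne (Finset.ne_of_mem_erase hi)]
    rw [this, smul_sub]
    abel
  rw [h1, ← Finset.add_sum_erase s (fun i => p i • u i) hk]
  have h2 : u k = (p k)⁻¹ • (p k • u k) := by rw [smul_smul, inv_mul_cancel₀ hpk, one_smul]
  conv_lhs => rw [h2]
  rw [← smul_sub]
  congr 1
  rw [smul_smul (p k), smul_smul, mul_inv_cancel₀ hpk, one_mul]
  abel

/-- Every finite family of nonempty open sets of `E` is controlled by a nonempty open set of
compact convex sets: the return times of the latter are return times of the product. -/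
theorem claim (f : E →L[ℝ] E) (l : ℕ) : ∀ (N : ℕ) (s : Finset ι), s.card = N + 1 →
    ∀ U : ι → Set E, (∀ i ∈ s, IsOpen (U i)) → (∀ i ∈ s, (U i).Nonempty) →
    ∃ T : Set (ConvexCompacts E), IsOpen T ∧ T.Nonempty ∧
      ∀ n ∈ returnSet (hyperConvex f) l T,
        ∃ x : ι → E, ∀ t ≤ l, ∀ i ∈ s, (f ^ (t * n) : E →L[ℝ] E) (x i) ∈ U i := by
  intro N
  induction N with
  | zero =>
    intro s hs U hUo hUne
    obtain ⟨i, rfl⟩ := Finset.card_eq_one.mp hs
    have hi : i ∈ ({i} : Finset ι) := by simp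
    obtain ⟨y, hy⟩ := hUne i hi
    refine ⟨{K | (K.1 : Set E) ⊆ U i}, ?_, ?_, ?_⟩
    · exact (NonemptyCompacts.isOpen_subsets_of_isOpen (hUo i hi)).preimage continuous_subtype_val
    · refine ⟨⟨⟨⟨{y}, isCompact_singleton⟩, singleton_nonempty y⟩, convex_singleton y⟩, ?_⟩
      exact singleton_subset_iff.mpr hy
    · intro n hn
      rw [mem_returnSet] at hn
      obtain ⟨K, hK⟩ := hn
      obtain ⟨x, hx⟩ := K.1.nonempty
      refine ⟨fun _ => x, fun t ht k hk => ?_⟩
      have := hK t ht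
      rw [mem_ofPred, hyperConvex_iterate] at this
      rw [Finset.mem_singleton.mp hk]
      exact this ⟨x, hx, rfl⟩
  | succ N ih =>
    intro s hs U hUo hUne
    have hUne' : ∀ i, ∃ y, i ∈ s → y ∈ U i := by
      intro i
      by_cases hi : i ∈ s
      · obtain ⟨y, hy⟩ := hUne i hi
        exact ⟨y, fun _ => hy⟩
      · exact ⟨0, fun h => absurd h hi⟩
    choose u hu using hUne'
    obtain ⟨q, hqc, hq⟩ := exists_seminorm s U u hUo hu
    have hsne : s.Nonempty := Finset.card_pos.mp (by omega)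
    have hcard : (1 : ℝ) ≤ s.card := by exact_mod_cast (show 1 ≤ s.card by omega)
    -- a bound for the mutual distances
    obtain ⟨M, hM1, hM⟩ : ∃ M : ℝ, 1 ≤ M ∧ ∀ i ∈ s, ∀ j ∈ s, q (u i - u j) ≤ M := by
      refine ⟨1 + ∑ i ∈ s, ∑ j ∈ s, q (u i - u j), ?_, fun i hi j hj => ?_⟩
      · have : 0 ≤ ∑ i ∈ s, ∑ j ∈ s, q (u i - u j) :=
          Finset.sum_nonneg fun i _ => Finset.sum_nonneg fun j _ => apply_nonneg q _
        linarith
      · have h1 : q (u i - u j) ≤ ∑ j ∈ s, q (u i - u j) :=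
          Finset.single_le_sum (f := fun j => q (u i - u j)) (fun j _ => apply_nonneg q _) hj
        have h2 : ∑ j ∈ s, q (u i - u j) ≤ ∑ i ∈ s, ∑ j ∈ s, q (u i - u j) :=
          Finset.single_le_sum (f := fun i => ∑ j ∈ s, q (u i - u j))
            (fun i _ => Finset.sum_nonneg fun j _ => apply_nonneg q _) hi
        linarith
    set η : ℝ := 1 / (2 * s.card * M) with hη
    have hη0 : 0 < η := by positivity
    have hη1 : η ≤ 1 / 2 := by
      rw [hη]
      apply one_div_le_one_div_of_le (by norm_num)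
      nlinarith
    set ε : ℝ := η / 2 with hε
    have hε0 : 0 < ε := by positivity
    -- the open set of convex compacta
    set V : Set E := {v | q v < ε} with hV
    have hVo : IsOpen V := isOpen_lt hqc continuous_const
    set P0 : Set E := convexHull ℝ (u '' (s : Set ι)) with hP0
    set T : Set (ConvexCompacts E) :=
      {K | (K.1 : Set E) ⊆ P0 + V} ∩ ⋂ i ∈ s, {K | ((K.1 : Set E) ∩ {x | q (x - u i) < ε}).Nonempty}
      with hT
    have hTo : IsOpen T := by
      refine IsOpen.inter ?_ ?_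
      · exact (NonemptyCompacts.isOpen_subsets_of_isOpen hVo.add_left).preimage
          continuous_subtype_val
      · refine isOpen_biInter_finset fun i hi => ?_
        exact (NonemptyCompacts.isOpen_inter_nonempty_of_isOpen
          (isOpen_lt (hqc.comp (by fun_prop)) continuous_const)).preimage continuous_subtype_val
    have hTne : T.Nonempty := by
      have hfin : (u '' (s : Set ι)).Finite := s.finite_toSet.image u
      have hne : (u '' (s : Set ι)).Nonempty := (Finset.coe_nonempty.mpr hsne).image u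
      refine ⟨⟨⟨⟨P0, hfin.isCompact_convexHull ℝ⟩, hne.convexHull⟩, convex_convexHull ℝ _⟩, ?_, ?_⟩
      · intro x hx
        exact ⟨x, hx, 0, by simp [hV, hε0], by simp⟩
      · rw [mem_iInter₂]
        intro i hi
        refine ⟨u i, subset_convexHull ℝ _ ⟨i, hi, rfl⟩, ?_⟩
        simp [hε0]
    by_cases hgood : ∀ n ∈ returnSet (hyperConvex f) l T,
        ∃ x : ι → E, ∀ t ≤ l, ∀ i ∈ s, (f ^ (t * n) : E →L[ℝ] E) (x i) ∈ U i
    · exact ⟨T, hTo, hTne, hgood⟩
    push Not at hgood
    obtain ⟨n, hn, hbad⟩ := hgood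
    rw [mem_returnSet] at hn
    obtain ⟨K, hK⟩ := hn
    have hK0 := hK 0 (Nat.zero_le _)
    have hx' : ∀ i, ∃ x, i ∈ s → x ∈ (K.1 : Set E) ∧ q (x - u i) < ε := by
      intro i
      by_cases hi : i ∈ s
      · have h2 := hK0.2
        rw [mem_iInter₂] at h2
        obtain ⟨x, hx1, hx2⟩ := h2 i hi
        refine ⟨x, fun _ => ⟨?_, hx2⟩⟩
        simpa using hx1
      · exact ⟨0, fun h => absurd h hi⟩
    choose x hx using hx'
    obtain ⟨t, ht, j, hj, hout⟩ := hbad x
    have hin : (f ^ (t * n) : E →L[ℝ] E) (x j) ∈ P0 + V := by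
      have h1 := (hK t ht).1
      rw [mem_ofPred, hyperConvex_iterate] at h1
      exact h1 ⟨x j, (hx j hj).1, rfl⟩
    obtain ⟨y, hy, e, he, hye⟩ := hin
    obtain ⟨p, hp0, hp1, rfl⟩ := hull_rep s u hy
    have he' : q e < ε := he
    have hfar : 1 ≤ q ((∑ i ∈ s, p i • u i + e) - u j) := by
      by_contra hlt
      push Not at hlt
      exact hout (hq j hj _ (by rw [← hye]; exact hlt))
    obtain ⟨k, hk, hkj, hpk⟩ := exists_big q s u j hj p hp0 hp1 e (by linarith) M (by linarith)
      (fun i hi => hM i hi j hj) hfar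
    have hpk0 : 0 < p k := lt_of_lt_of_le hη0 hpk
    have hpj1 : p j ≤ 1 := by
      rw [← hp1]; exact Finset.single_le_sum hp0 hj
    set z0 : ι → E := Function.update u j (x j) with hz0
    have hj' : j ∈ s.erase k := Finset.mem_erase.mpr ⟨hkj.symm, hj⟩
    have hΦz0 : Phi f s p j k (t * n) z0 ∈ U k := by
      apply hq k hk
      rw [hz0, Phi_value f s p j k (t * n) u (x j) e hj hk hkj hpk0.ne' hye.symm, map_smul_eq_mul,
        Real.norm_of_nonneg (inv_nonneg.mpr hpk0.le), inv_mul_lt_iff₀ hpk0, mul_one]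
      have h1 : q (e - p j • (x j - u j)) ≤ q e + q (p j • (x j - u j)) := map_sub_le_add q _ _
      have h2 : q (p j • (x j - u j)) ≤ q (x j - u j) := by
        rw [map_smul_eq_mul, Real.norm_of_nonneg (hp0 j hj)]
        exact mul_le_of_le_one_left (apply_nonneg q _) hpj1
      have h3 := (hx j hj).2
      have h4 : η ≤ p k := hpk
      linarith
    have hz0U : ∀ i ∈ s.erase k, z0 i ∈ U i := by
      intro i hi
      by_cases hij : i = j
      · subst hij
        rw [hz0, Function.update_self]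
        apply hq i hj
        have := (hx i hj).2
        linarith
      · rw [hz0, Function.update_of_ne hij]
        exact hu i (Finset.mem_of_mem_erase hi)
    -- a box inside the preimage
    have hΩ : IsOpen ((Phi f s p j k (t * n)) ⁻¹' (U k)) :=
      (hUo k hk).preimage (Phi_continuous f s p j k (t * n))
    obtain ⟨I, B, hB, hIB⟩ := isOpen_pi_iff.mp hΩ z0 hΦz0
    set W : ι → Set E := fun i => if i ∈ I then B i ∩ U i else U i with hW
    have hWU : ∀ i, W i ⊆ U i := by
      intro i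
      simp only [hW]
      split_ifs
      · exact inter_subset_right
      · exact subset_rfl
    have hWo : ∀ i ∈ s.erase k, IsOpen (W i) := by
      intro i hi
      simp only [hW]
      split_ifs with h
      · exact (hB i h).1.inter (hUo i (Finset.mem_of_mem_erase hi))
      · exact hUo i (Finset.mem_of_mem_erase hi)
    have hWne : ∀ i ∈ s.erase k, (W i).Nonempty := by
      intro i hi
      refine ⟨z0 i, ?_⟩
      simp only [hW]
      split_ifs with h
      · exact ⟨(hB i h).2, hz0U i hi⟩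
      · exact hz0U i hi
    have hWΦ : ∀ z : ι → E, (∀ i ∈ s.erase k, z i ∈ W i) → Phi f s p j k (t * n) z ∈ U k := by
      intro z hz
      have h1 : Phi f s p j k (t * n) z =
          Phi f s p j k (t * n) (fun i => if i ∈ s.erase k then z i else z0 i) :=
        Phi_congr f s p j k (t * n) _ _ hj' fun i hi => by simp only [hi, if_true]
      rw [h1]
      apply hIB
      intro i hi
      have hi' : i ∈ I := hi
      by_cases hik : i ∈ s.erase k
      · simp only [hik, if_true]
        have := hz i hik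
        simp only [hW, hi', if_true] at this
        exact this.1
      · simp only [hik, if_false]
        exact (hB i hi').2
    obtain ⟨T', hT'o, hT'ne, hT'⟩ := ih (s.erase k) (by rw [Finset.card_erase_of_mem hk, hs]; rfl)
      W hWo hWne
    refine ⟨T', hT'o, hT'ne, fun m hm => ?_⟩
    obtain ⟨z, hz⟩ := hT' m hm
    refine ⟨fun i => if i = k then Phi f s p j k (t * n) z else z i, fun r hr i hi => ?_⟩
    by_cases hik : i = k
    · subst hik
      simp only [if_true]
      rw [Phi_comm]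
      exact hWΦ _ (fun i' hi' => hz r hr i' hi')
    · simp only [hik, if_false]
      exact hWU i (hz r hr i (Finset.mem_erase.mpr ⟨hik, hi⟩))

/-- `𝒞(X)` recurrent implies `𝒦(X)` recurrent. -/
theorem hyper_of_convex (f : E →L[ℝ] E) (l : ℕ) (A : Set (Set ℕ)) (hA : IsFurstenberg A)
    (h : IsRecurrent (hyperConvex f) l A) : IsRecurrent (hyper f f.continuous) l A := by
  classical
  intro O hO hne
  obtain ⟨C, hC⟩ := hne
  obtain ⟨_, ⟨u, ⟨hufin, hune, huo⟩, rfl⟩, hCu, huO⟩ :=
    NonemptyCompacts.isTopologicalBasis.exists_subset_of_mem_open hC hO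
  obtain ⟨hC1, hC2⟩ := hCu
  set s : Finset (Set E) := hufin.toFinset with hs
  have hsmem : ∀ U, U ∈ s ↔ U ∈ u := fun U => by simp [hs]
  obtain ⟨U0, hU0⟩ := hune
  have hcard : 0 < s.card := Finset.card_pos.mpr ⟨U0, (hsmem _).mpr hU0⟩
  obtain ⟨T, hTo, hTne, hT⟩ := claim f l (s.card - 1) s (by omega) (fun U => U)
    (fun U hU => huo U ((hsmem U).mp hU))
    (fun U hU => (hC2 U ((hsmem U).mp hU)).mono inter_subset_right)
  refine hA.1 _ (h T hTo hTne) _ ?_
  intro n hn
  obtain ⟨x, hx⟩ := hT n hn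
  rw [mem_returnSet]
  refine ⟨⟨⟨x '' u, (hufin.image x).isCompact⟩, ⟨x U0, U0, hU0, rfl⟩⟩, fun t ht => huO ⟨?_, ?_⟩⟩
  · rw [hyper_iterate]
    rintro _ ⟨_, ⟨U, hU, rfl⟩, rfl⟩
    exact ⟨U, hU, hx t ht U ((hsmem U).mpr hU)⟩
  · intro U hU
    rw [hyper_iterate]
    exact ⟨_, ⟨x U, ⟨U, hU, rfl⟩, rfl⟩, hx t ht U ((hsmem U).mpr hU)⟩

end X109RC
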